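import Pool.Agent.Lib.MP_db8e30_gt.NotNormal

set_option autoImplicit false

open Set Filter Topology Pool.Agent.Lib.MP_db8e30_gt

namespace Pool.Agent.Results.MP_db8e30_gt.CountableUltrafilters

/-- `B` is a pretty base of `X`: a base of clopen sets such that for every countable `C ⊆ B` and
every `D ⊆ B` with `c ∩ d = ∅` for all `c ∈ C`, `d ∈ D` some `b ∈ B` contains every member of `C` and
is disjoint from every member of `D`. -/
structure IsPrettyBase {X : Type} [TopologicalSpace X] (B : Set (Set X)) : Prop where
  base : TopologicalSpace.IsTopologicalBasis B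
  clopen : ∀ b ∈ B, IsClopen b
  separation : ∀ C D : Set (Set X), C ⊆ B → D ⊆ B → C.Countable →
    (∀ c ∈ C, ∀ d ∈ D, c ∩ d = ∅) → ∃ b ∈ B, (∀ c ∈ C, c ⊆ b) ∧ ∀ d ∈ D, b ∩ d = ∅

/-- The cotopology of `B`, generated by the complements of the closures of the members of `B`. -/
@[reducible] def cotopology {X : Type} [TopologicalSpace X] (B : Set (Set X)) : TopologicalSpace X :=
  TopologicalSpace.generateFrom {U : Set X | ∃ b ∈ B, U = (closure b)ᶜ}

/-- `B` is cocompact: every cover of `X` by sets which are open in the cotopology of `B` has a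
finite subcover. -/
def IsCocompact {X : Type} [TopologicalSpace X] (B : Set (Set X)) : Prop :=
  ∀ 𝓤 : Set (Set X), (∀ U ∈ 𝓤, IsOpen[cotopology B] U) → ⋃₀ 𝓤 = univ →
    ∃ 𝓕 ⊆ 𝓤, 𝓕.Finite ∧ ⋃₀ 𝓕 = univ

/-- The space of the ultrafilters on the set `I` which contain a countable set, a subspace of the
Stone-Čech compactification of the discrete space `I`. -/
abbrev X (I : Type) : Type := {p : Ultrafilter I // ∃ A ∈ p, A.Countable}

theorem isPrettyBase (I : Type) : IsPrettyBase (base I) where
  base := isTopologicalBasis_base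
  clopen := by
    rintro b ⟨A, -, rfl⟩
    exact isClopen_bas A
  separation := by
    intro C D hC hD hCc hCD
    obtain ⟨b, hb, h1, h2⟩ := separation C D hC hD hCc
      (fun c hc d hd => Set.disjoint_iff_inter_eq_empty.2 (hCD c hc d hd))
    exact ⟨b, hb, h1, fun d hd => Set.disjoint_iff_inter_eq_empty.1 (h2 d hd)⟩

theorem isCocompact (I : Type) [Nonempty I] : IsCocompact (base I) := by
  intro 𝓤 hU hcov
  have h := cocompact (I := I)
  obtain ⟨t, ht1, ht2, ht3⟩ := @IsCompact.elim_finite_subcover_image (X I) (Set (X I))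
    (cotopology (base I)) univ 𝓤 id h hU (by
      intro x _
      have hx : x ∈ ⋃₀ 𝓤 := by
        rw [hcov]
        exact mem_univ x
      obtain ⟨U, hU1, hU2⟩ := hx
      exact mem_biUnion hU1 hU2)
  refine ⟨t, ht1, ht2, ?_⟩
  refine eq_univ_of_univ_subset (ht3.trans ?_)
  intro x hx
  obtain ⟨U, hU1, hU2⟩ := mem_iUnion₂.1 hx
  exact ⟨U, hU1, hU2⟩

/-- The embedding of the spaces of an injection. -/
def emb {I J : Type} (f : J → I) (p : X J) : X I :=
  ⟨p.1.map f, by
    obtain ⟨A, hA, hAc⟩ := p.2
    exact ⟨f '' A, Filter.image_mem_map hA, hAc.image f⟩⟩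

theorem continuous_map {I J : Type} (f : J → I) : Continuous (Ultrafilter.map f) := by
  refine ultrafilterBasis_is_basis.continuous_iff.2 ?_
  rintro _ ⟨s, rfl⟩
  exact ultrafilter_isOpen_basic (f ⁻¹' s)

theorem isClosedEmbedding_emb {I J : Type} {f : J → I} (hf : Function.Injective f) :
    IsClosedEmbedding (emb f) := by
  have h1 : IsClosedEmbedding (Ultrafilter.map f) :=
    (continuous_map f).isClosedEmbedding (by
      intro u v huv
      apply Ultrafilter.coe_injective
      exact Filter.map_injective hf (congrArg (fun w : Ultrafilter I => (w : Filter I)) huv))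
  have h2 : IsEmbedding (Subtype.val ∘ emb f) := by
    have h3 : (Subtype.val ∘ emb f) = Ultrafilter.map f ∘ Subtype.val := rfl
    rw [h3]
    exact h1.isEmbedding.comp IsEmbedding.subtypeVal
  have hcont : Continuous (emb f) :=
    Continuous.subtype_mk ((continuous_map f).comp continuous_subtype_val) _
  refine ⟨IsEmbedding.of_comp hcont continuous_subtype_val h2, ?_⟩
  have h4 : range (emb f) = bas (range f) := by
    ext q
    constructor
    · rintro ⟨p, rfl⟩
      show f ⁻¹' (range f) ∈ p.1
      rw [preimage_range]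
      exact Filter.univ_mem
    · intro hq
      have hr : range f ∈ q.1 := hq
      obtain ⟨B, hB, hBc⟩ := q.2
      refine ⟨⟨q.1.comap hf hr, f ⁻¹' B, ?_, hBc.preimage hf⟩, ?_⟩
      · exact ⟨B, hB, subset_rfl⟩
      · apply Subtype.ext
        apply Ultrafilter.coe_injective
        show Filter.map f (Filter.comap f q.1) = q.1
        exact Filter.map_comap_of_mem hr
  rw [h4]
  exact isClosed_bas _

theorem locallyCompact (I : Type) : LocallyCompactSpace (X I) := by
  refine ⟨fun p U hU => ?_⟩
  obtain ⟨V, hVU, hV, hpV⟩ := mem_nhds_iff.1 hU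
  obtain ⟨A, hAc, hAp, hAV⟩ := exists_bas_subset hV hpV
  exact ⟨bas A, (isOpen_bas A).mem_nhds hAp, hAV.trans hVU, isCompact_bas hAc⟩

/-- The space of an uncountable set is not normal. -/
theorem not_normal_of_uncountable {I : Type} (hI : ¬ Countable I) : ¬ NormalSpace (X I) := by
  intro H
  let α : Type := (Cardinal.aleph 1).ord.ToType
  have hc : ∀ a : α, (Set.Iio a).Countable := by
    intro a
    have h : Cardinal.mk (Set.Iio a) < Cardinal.aleph 1 := by
      simpa [α] using Cardinal.mk_Iio_lt a (by simp [α])
    rw [← Cardinal.le_aleph0_iff_set_countable]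
    exact Cardinal.lt_aleph_one_iff.mp h
  have h4 : Cardinal.mk α = Cardinal.aleph 1 := by
    simp [α]
  have hu : ¬ (Set.univ : Set α).Countable := by
    intro h
    have h3 : Cardinal.mk α ≤ Cardinal.aleph0 := by
      rw [← Cardinal.mk_univ]
      exact Cardinal.le_aleph0_iff_set_countable.mpr h
    rw [h4] at h3
    exact absurd h3 (not_le.mpr Cardinal.aleph0_lt_aleph_one)
  obtain ⟨e, h1, h2⟩ := exists_coherent hc
  have hcard : Cardinal.mk (α × ℕ) ≤ Cardinal.mk I := by
    have h5 : Cardinal.mk (α × ℕ) = Cardinal.aleph 1 := by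
      rw [Cardinal.mk_prod, Cardinal.lift_id, Cardinal.lift_id, h4, Cardinal.mk_nat]
      exact Cardinal.mul_eq_left (Cardinal.aleph0_le_aleph 1) (Cardinal.aleph0_le_aleph 1)
        Cardinal.aleph0_ne_zero
    rw [h5, ← Cardinal.succ_aleph0, Order.succ_le_iff]
    rw [← not_le, Cardinal.mk_le_aleph0_iff]
    exact hI
  obtain ⟨f⟩ := hcard
  exact not_normal hc hu h1 h2 (isClosedEmbedding_emb f.injective).normalSpace

/-- The space of a countable set is normal (it is compact). -/
theorem normal_of_countable {I : Type} (hI : Countable I) : NormalSpace (X I) := by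
  have h1 : (univ : Set (X I)) = bas univ := by
    ext p
    exact ⟨fun _ => Filter.univ_mem, fun _ => mem_univ p⟩
  have h2 : CompactSpace (X I) := ⟨by
    rw [h1]
    exact isCompact_bas (Set.to_countable _)⟩
  infer_instance

/-- **A cocompact pretty base does not imply normality.** For every nonempty set `I` the space
`X I` of the ultrafilters on `I` which contain a countable set is a locally compact Tychonoff space
with a cocompact pretty base, and it is normal if and only if `I` is countable. -/
theorem result (I : Type) [Nonempty I] :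
    T35Space (X I) ∧ LocallyCompactSpace (X I) ∧
      (∃ B : Set (Set (X I)), IsPrettyBase B ∧ IsCocompact B) ∧
      (NormalSpace (X I) ↔ Countable I) := by
  refine ⟨inferInstance, locallyCompact I, ⟨base I, isPrettyBase I, isCocompact I⟩, ?_, ?_⟩
  · intro h
    by_contra hI
    exact not_normal_of_uncountable hI h
  · exact normal_of_countable

end Pool.Agent.Results.MP_db8e30_gt.CountableUltrafilters
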